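import Pool.Agent.FQ.Main

/-!
# Many primes with a small nonvanishing Fermat quotient

For every `β > 5/4` there is `δ > 0` such that for all large `x` at least `x^δ` odd primes
`p ≤ x` have property (P89) with `89` replaced by `(log p)^β`; moreover for these primes some prime
`ℓ ≤ (log p)^β` satisfies `ℓ^(p-1) ≢ 1 (mod p^2)`.
-/

set_option autoImplicit false

namespace Pool.Agent.Results.MP_bcc756_nt.ManyPrimesFermatQuotient

theorem result (β : ℝ) (hβ : 5 / 4 < β) :
    ∃ δ : ℝ, 0 < δ ∧ ∃ x₀ : ℝ, ∀ x : ℝ, x₀ ≤ x →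
      x ^ δ ≤ ((Pool.Agent.FQ.Good β x).card : ℝ) :=
  Pool.Agent.FQ.main β hβ

end Pool.Agent.Results.MP_bcc756_nt.ManyPrimesFermatQuotient
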